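import Pool.Agent.Lib.MP_abd978_an.Interfaces

/-!
# Project ABD, module TGT: the target estimate for potentials
-/

set_option autoImplicit false

open MeasureTheory Metric Set Filter Topology ContDiff
open scoped Gradient RealInnerProductSpace

namespace Pool.Agent.Lib.MP_abd978_an.H57


theorem tgt (hHalg : HalgStatement) (hSph : SphStatement) (hPharm : PharmStatement)
    (hPmin : PminStatement) (hPmax : PmaxStatement) (hPnz : PnzStatement) : TgtStatement := by
  intro n p μ a α β y R ρ ε hn hρ hρR hε hop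
  obtain ⟨C, hC1, hC⟩ := hSph n p μ a α β hn hop
  have hn1 : 1 ≤ n := by omega
  have hC0 : 0 < C := by linarith
  have hR : 0 < R := hρ.trans hρR
  haveI : Nontrivial (E n) := by
    haveI : Nonempty (Fin n) := ⟨⟨0, by omega⟩⟩
    infer_instance
  set q : ℝ := 1 - 1 / C with hq
  have hq0 : 0 ≤ q := by
    rw [hq, sub_nonneg, div_le_one hC0]
    exact hC1
  have hq1 : q < 1 := by
    rw [hq]
    have : 0 < 1 / C := by positivity
    linarith
  obtain ⟨k, hk⟩ : ∃ k : ℕ, q ^ k * (C - 1) ≤ ε := by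
    have h1 : Tendsto (fun k : ℕ => q ^ k * (C - 1)) atTop (𝓝 (0 * (C - 1))) :=
      (tendsto_pow_atTop_nhds_zero_of_lt_one hq0 hq1).mul_const _
    rw [zero_mul] at h1
    exact ((h1.eventually (gt_mem_nhds hε)).exists).imp fun _ h => le_of_lt h
  set ρ' : ℝ := min ρ (R / 8) with hρ'
  have hρ'0 : 0 < ρ' := lt_min hρ (by positivity)
  have hρ'ρ : ρ' ≤ ρ := min_le_left _ _
  have hρ'R : ρ' ≤ R / 8 := min_le_right _ _
  set r₀ : ℝ := ρ' / 2 ^ k with hr₀
  have h2k : (1 : ℝ) ≤ 2 ^ k := one_le_pow₀ (by norm_num)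
  have hr₀0 : 0 < r₀ := by positivity
  have hr₀ρ : r₀ ≤ ρ' := div_le_self hρ'0.le h2k
  refine ⟨r₀ / 8, by positivity, ?_⟩
  intro y' κ v hne hd hκ hpot
  set d : ℝ := dist y' y with hdd
  have hd0 : 0 < d := dist_pos.2 hne
  have hκ0 : 0 < κ := hpot.1
  have hv01 : ∀ x, v x ∈ Icc (0 : ℝ) 1 := hpot.2.2.1
  have hcont : ContinuousOn v (ball y R \ closedBall y' κ) := hpot.2.2.2.1
  have hK : ∀ r : ℝ, 2 * d ≤ r → closedBall y' κ ⊆ ball y r := by
    intro r hr z hz
    rw [mem_closedBall] at hz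
    rw [mem_ball]
    have h1 : dist z y ≤ dist z y' + dist y' y := dist_triangle _ _ _
    rw [← hdd] at h1
    linarith
  have hyK : y ∉ closedBall y' κ := by
    rw [mem_closedBall, dist_comm]
    rw [← hdd]
    linarith
  have hnotK : ∀ z : E n, 2 * d ≤ dist z y → z ∉ closedBall y' κ := by
    intro z hz hz'
    have h1 := hK (2 * d) le_rfl hz'
    rw [mem_ball] at h1
    linarith
  have hDopen : IsOpen (ball y R \ closedBall y' κ) := isOpen_ball.sdiff isClosed_closedBall
  have hharm : Harm μ p a (ball y R \ closedBall y' κ) v := hPharm n p μ a α β y R y' κ v hop hpot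
  have hsubD : ∀ r, 2 * d ≤ r → r < R → sphere y r ⊆ ball y R \ closedBall y' κ := by
    intro r h1 h2 z hz
    rw [mem_sphere] at hz
    exact ⟨by rw [mem_ball, hz]; exact h2, hnotK z (by rw [hz]; exact h1)⟩
  -- a point of the sphere with small value
  have hpt : ∀ r, 2 * d ≤ r → r < R → ∃ z ∈ sphere y r, v z ≤ v y := by
    intro r h1 h2
    have hr0 : 0 ≤ r := by linarith
    obtain ⟨z, hz, hz'⟩ := (isCompact_sphere y r).exists_isMinOn (NormedSpace.sphere_nonempty.2 hr0)
      (hcont.mono (hsubD r h1 h2))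
    refine ⟨z, hz, ?_⟩
    refine hPmin n p μ a α β y R y' κ v r (v z) hn1 hop hpot (hK r h1) h2 (fun w hw => hz' hw) y
      ⟨?_, hyK⟩
    rw [mem_ball, dist_self]
    linarith
  -- the Harnack inequality for v on spheres
  have hsph : ∀ r, 4 * d ≤ r → 2 * r ≤ R → ∀ x ∈ sphere y r, v x ≤ C * v y := by
    intro r h1 h2 x hx
    have hr0 : 0 < r := by linarith
    obtain ⟨z, hz, hz'⟩ := hpt r (by linarith) (by linarith)
    have h3 := hC y r (ball y R \ closedBall y' κ) v hr0 hDopen hharm (by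
      intro w hw1 hw2
      exact ⟨⟨by rw [mem_ball]; linarith, hnotK w (by linarith)⟩, (hv01 w).1⟩) x hx z hz
    exact h3.trans (mul_le_mul_of_nonneg_left hz' hC0.le)
  have h8d : 8 * d < r₀ := by linarith
  -- v y is positive
  have hvy : 0 < v y := by
    rcases (hv01 y).1.lt_or_eq with h | h
    · exact h
    · exfalso
      have h1 : ∀ x ∈ sphere y (4 * d), v x ≤ 0 := by
        intro x hx
        have := hsph (4 * d) le_rfl (by linarith) x hx
        rw [← h, mul_zero] at this
        exact this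
      have h2 := hPmax n p μ a α β y R y' κ v (4 * d) 0 hn1 hop hpot (hK _ (by linarith))
        (by linarith) h1
      obtain ⟨x, hx, hx'⟩ := hPnz n p μ a α β y R y' κ v (4 * d) hn1 hop hpot (hK _ (by linarith))
        (by linarith)
      refine hx' (le_antisymm (h2 x ⟨hx.1, fun h => hx.2 (ball_subset_closedBall h)⟩) (hv01 x).1)
  refine ⟨hvy, ?_⟩
  set b : ℝ := v y with hb
  -- the recurrence
  have hrec : ∀ r M, 4 * d ≤ r → 4 * r ≤ R → (∀ x ∈ sphere y r, v x ≤ M) →
      ∀ x ∈ sphere y (2 * r), v x ≤ b + q * (M - b) := by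
    intro r M h1 h2 hM x hx
    have hr0 : 0 < r := by linarith
    have h3 := hPmax n p μ a α β y R y' κ v r M hn1 hop hpot (hK _ (by linarith)) (by linarith) hM
    obtain ⟨z, hz, hz'⟩ := hpt (2 * r) (by linarith) (by linarith)
    have h4 := hC y (2 * r) (ball y R \ closedBall y' κ) (fun x => M - v x) (by linarith) hDopen
      ((hHalg n p μ a α β _ v hop hDopen hharm).1 M) (by
        intro w hw1 hw2
        have hw3 : w ∈ ball y R := by rw [mem_ball]; linarith
        refine ⟨⟨hw3, hnotK w (by linarith)⟩, ?_⟩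
        have := h3 w ⟨hw3, by rw [mem_ball]; linarith⟩
        show 0 ≤ M - v w
        linarith) z hz x hx
    have h5 : M - b ≤ C * (M - v x) := by
      have h6 : M - v z ≤ C * (M - v x) := h4
      linarith
    have h7 : (M - b) / C ≤ M - v x := by
      rw [div_le_iff₀ hC0]
      linarith
    have h8 : q * (M - b) = (M - b) - (M - b) / C := by
      rw [hq]
      ring
    rw [h8]
    linarith
  have hP : ∀ j : ℕ, j ≤ k → ∀ x ∈ sphere y (2 ^ j * r₀), v x ≤ b + q ^ j * ((C - 1) * b) := by
    intro j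
    induction j with
    | zero =>
      intro _ x hx
      rw [pow_zero, one_mul] at hx
      have := hsph r₀ (by linarith) (by linarith) x hx
      rw [pow_zero, one_mul]
      linarith
    | succ j ih =>
      intro hj x hx
      have h1 := ih (by omega)
      have h2j : (1 : ℝ) ≤ 2 ^ j := one_le_pow₀ (by norm_num)
      have h2 : (2 : ℝ) ^ j * r₀ ≤ ρ' / 2 := by
        have h3 : (2 : ℝ) ^ (j + 1) ≤ 2 ^ k := pow_le_pow_right₀ (by norm_num) hj
        have h4 : (2 : ℝ) ^ (j + 1) * r₀ ≤ ρ' := by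
          rw [hr₀, ← mul_div_assoc, div_le_iff₀ (by positivity), mul_comm]
          exact mul_le_mul_of_nonneg_left h3 hρ'0.le
        rw [pow_succ] at h4
        linarith
      have h5 : r₀ ≤ 2 ^ j * r₀ := le_mul_of_one_le_left hr₀0.le h2j
      have h6 := hrec (2 ^ j * r₀) (b + q ^ j * ((C - 1) * b)) (by linarith) (by linarith) h1 x (by
        rw [pow_succ] at hx
        have h7 : 2 * (2 ^ j * r₀) = 2 ^ j * 2 * r₀ := by ring
        rw [h7]
        exact hx)
      have h8 : b + q * (b + q ^ j * ((C - 1) * b) - b) = b + q ^ (j + 1) * ((C - 1) * b) := by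
        ring
      rw [h8] at h6
      exact h6
  have hfin : ∀ x ∈ sphere y ρ', v x ≤ (1 + ε) * b := by
    intro x hx
    have h1 : 2 ^ k * r₀ = ρ' := by
      rw [hr₀]
      field_simp
    have h2 := hP k le_rfl x (by rw [h1]; exact hx)
    have h3 : q ^ k * ((C - 1) * b) ≤ ε * b := by
      rw [← mul_assoc]
      exact mul_le_mul_of_nonneg_right hk hvy.le
    linarith
  intro x hx hx'
  exact hPmax n p μ a α β y R y' κ v ρ' ((1 + ε) * b) hn1 hop hpot (hK _ (by linarith))
    (by linarith) hfin x ⟨hx, by rw [mem_ball]; linarith⟩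

end Pool.Agent.Lib.MP_abd978_an.H57
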